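import Mathlib

set_option autoImplicit false

namespace Pool.Agent.Results.MP_f90694_nt.ParityIndexRegular

/-- `h` is the sequence of the problem: `h n = 1` for `n ≤ 1` and
`h n = h (n - h (n-1)) + h (n-2)` for `n > 1`. -/
def IsMeta (h : ℤ → ℤ) : Prop :=
  (∀ n : ℤ, n ≤ 1 → h n = 1) ∧ ∀ n : ℤ, 1 < n → h n = h (n - h (n - 1)) + h (n - 2)

/-- The `k`-kernel of an integer sequence. -/
def kernel (k : ℕ) (a : ℕ → ℤ) : Set (ℕ → ℤ) :=
  {v | ∃ j c : ℕ, c < k ^ j ∧ v = fun n => a (k ^ j * n + c)}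

/-- `a` is `k`-regular: the `ℤ`-submodule of `ℤ^ℕ` generated by the `k`-kernel is finitely
generated. -/
def IsRegular (k : ℕ) (a : ℕ → ℤ) : Prop := (Submodule.span ℤ (kernel k a)).FG

/-! ### Existence of the sequence -/

/-- the sequence on the naturals -/
def H : ℕ → ℤ
  | 0 => 1
  | 1 => 1
  | (n + 2) => if n % 2 = 0 then H n + H (n / 2 + 1) else (n / 2 : ℕ) + 2
  decreasing_by all_goals omega

theorem H_even (m : ℕ) : H (2 * m + 2) = H (2 * m) + H (m + 1) := by
  rw [H, if_pos (by omega)]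
  congr 2
  omega

theorem H_odd (m : ℕ) : H (2 * m + 1) = m + 1 := by
  rcases m with _ | m
  · simp [H]
  · have e : 2 * (m + 1) + 1 = (2 * m + 1) + 2 := by ring
    rw [e, H, if_neg (by omega)]
    have : (2 * m + 1) / 2 = m := by omega
    rw [this]
    push_cast
    ring

theorem H_ge (m : ℕ) : (2 * m : ℤ) ≤ H (2 * m) ∧ 1 ≤ H (2 * m) := by
  induction m using Nat.strong_induction_on with
  | _ m ih =>
    rcases m with _ | m
    · simp [H]
    · have e : 2 * (m + 1) = 2 * m + 2 := by ring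
      rw [e, H_even]
      have h1 := ih m (by omega)
      have h2 : 1 ≤ H (m + 1) ∧ (1 ≤ m → 2 ≤ H (m + 1)) := by
        rcases Nat.even_or_odd' (m + 1) with ⟨c, hc | hc⟩
        · have h3 := ih c (by omega)
          rw [hc]
          refine ⟨h3.2, fun _ => ?_⟩
          have : 1 ≤ c := by omega
          have : (1 : ℤ) ≤ c := by exact_mod_cast this
          linarith [h3.1]
        · rw [hc, H_odd]
          refine ⟨by omega, fun _ => ?_⟩
          have : 1 ≤ c := by omega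
          have : (1 : ℤ) ≤ c := by exact_mod_cast this
          linarith
      push_cast
      rcases Nat.eq_zero_or_pos m with h0 | h0
      · subst h0
        simp only [Nat.cast_zero, mul_zero, zero_add] at *
        constructor <;> linarith [h1.2, h2.1]
      · have := h2.2 h0
        constructor <;> linarith [h1.1, h1.2]

/-- the sequence -/
def hh (z : ℤ) : ℤ := if z ≤ 1 then 1 else H z.toNat

theorem hh_natCast (n : ℕ) : hh n = H n := by
  unfold hh
  split_ifs with h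
  · have : n = 0 ∨ n = 1 := by omega
    rcases this with rfl | rfl <;> simp [H]
  · simp

theorem isMeta_hh : IsMeta hh := by
  refine ⟨fun n hn => by unfold hh; rw [if_pos hn], fun n hn => ?_⟩
  obtain ⟨m, rfl⟩ : ∃ m : ℕ, n = m + 2 := ⟨(n - 2).toNat, by omega⟩
  have e1 : ((m : ℤ) + 2 - 1) = ((m + 1 : ℕ) : ℤ) := by push_cast; ring
  have e2 : ((m : ℤ) + 2 - 2) = (m : ℤ) := by ring
  have e3 : ((m : ℤ) + 2) = ((m + 2 : ℕ) : ℤ) := by push_cast; ring
  rw [e1, e2, hh_natCast, hh_natCast, e3, hh_natCast]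
  rcases Nat.even_or_odd' m with ⟨c, rfl | rfl⟩
  · rw [H_even, H_odd]
    have e4 : (((2 * c + 2 : ℕ) : ℤ) - (c + 1)) = ((c + 1 : ℕ) : ℤ) := by push_cast; ring
    rw [e4, hh_natCast]
    ring
  · have e5 : 2 * c + 1 + 1 = 2 * (c + 1) := by ring
    have e6 : 2 * c + 1 + 2 = 2 * (c + 1) + 1 := by ring
    rw [e5, e6, H_odd, H_odd]
    have h1 := (H_ge (c + 1)).1
    have h2 : hh (((2 * (c + 1) + 1 : ℕ) : ℤ) - H (2 * (c + 1))) = 1 := by
      unfold hh
      rw [if_pos]
      push_cast at h1 ⊢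
      linarith
    rw [h2]
    push_cast
    ring

/-! ### The recurrences -/

theorem meta_step {h : ℤ → ℤ} (hm : IsMeta h) (m : ℕ) :
    (2 * (m : ℤ) ≤ h (2 * m) ∧ 1 ≤ h (2 * m)) ∧ h (2 * m + 1) = m + 1 := by
  induction m using Nat.strong_induction_on with
  | _ m ih =>
    rcases m with _ | m
    · have h0 := hm.1 0 (by norm_num)
      have h1 := hm.1 1 (by norm_num)
      norm_num [h0, h1]
    · have h1 := ih m (by omega)
      have h2 : 1 ≤ h (m + 1) ∧ (1 ≤ m → 2 ≤ h (m + 1)) := by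
        rcases Nat.even_or_odd' (m + 1) with ⟨c, hc | hc⟩
        · have h3 := ih c (by omega)
          have e : ((m : ℤ) + 1) = 2 * c := by exact_mod_cast hc
          rw [e]
          refine ⟨h3.1.2, fun _ => ?_⟩
          have : 1 ≤ c := by omega
          have : (1 : ℤ) ≤ c := by exact_mod_cast this
          linarith [h3.1.1]
        · have h3 := ih c (by omega)
          have e : ((m : ℤ) + 1) = 2 * c + 1 := by exact_mod_cast hc
          rw [e, h3.2]
          refine ⟨by omega, fun _ => ?_⟩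
          have : 1 ≤ c := by omega
          have : (1 : ℤ) ≤ c := by exact_mod_cast this
          linarith
      have h4 : h (2 * m + 2) = h (m + 1) + h (2 * m) := by
        have h5 := hm.2 (2 * m + 2) (by omega)
        have e1 : ((2 : ℤ) * m + 2 - 1) = 2 * m + 1 := by ring
        have e2 : ((2 : ℤ) * m + 2 - 2) = 2 * m := by ring
        rw [e1, e2, h1.2] at h5
        have e3 : ((2 : ℤ) * m + 2 - (m + 1)) = m + 1 := by ring
        rw [e3] at h5
        exact h5
      have e : ((2 : ℤ) * ((m + 1 : ℕ) : ℤ)) = 2 * m + 2 := by push_cast; ring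
      rw [e]
      have h6 : 2 * (m : ℤ) + 2 ≤ h (2 * m + 2) ∧ 1 ≤ h (2 * m + 2) := by
        rw [h4]
        rcases Nat.eq_zero_or_pos m with h0 | h0
        · subst h0
          simp only [Nat.cast_zero, mul_zero, zero_add] at *
          constructor <;> linarith [h1.1.2, h2.1]
        · have := h2.2 h0
          constructor <;> linarith [h1.1.1, h1.1.2]
      refine ⟨h6, ?_⟩
      have h7 := hm.2 (2 * m + 2 + 1) (by omega)
      have e1 : ((2 : ℤ) * m + 2 + 1 - 1) = 2 * m + 2 := by ring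
      have e2 : ((2 : ℤ) * m + 2 + 1 - 2) = 2 * m + 1 := by ring
      rw [e1, e2, h1.2, hm.1 (2 * m + 2 + 1 - h (2 * m + 2)) (by linarith [h6.1])] at h7
      rw [h7]
      push_cast
      ring

/-- the parity sequence -/
def par (h : ℤ → ℤ) (n : ℕ) : ℕ := (h n % 2).toNat

theorem par_spec {h : ℤ → ℤ} (hm : IsMeta h) : (∀ n, par h n < 2) ∧
    (∀ m, par h (2 * m + 1) = (m + 1) % 2) ∧
    (∀ m, par h (2 * m + 2) = (par h (2 * m) + par h (m + 1)) % 2) := by
  refine ⟨fun n => by unfold par; omega, fun m => ?_, fun m => ?_⟩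
  · unfold par
    have h1 := (meta_step hm m).2
    push_cast
    rw [h1]
    omega
  · unfold par
    have h1 := meta_step hm m
    have h4 : h (2 * m + 2) = h (m + 1) + h (2 * m) := by
      have h5 := hm.2 (2 * m + 2) (by omega)
      have e1 : ((2 : ℤ) * m + 2 - 1) = 2 * m + 1 := by ring
      have e2 : ((2 : ℤ) * m + 2 - 2) = 2 * m := by ring
      rw [e1, e2, h1.2] at h5
      have e3 : ((2 : ℤ) * m + 2 - (m + 1)) = m + 1 := by ring
      rw [e3] at h5
      exact h5
    push_cast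
    rw [h4]
    omega

/-! ### The structure of the parity sequence -/

section structure_
variable {p : ℕ → ℕ} (h0 : ∀ n, p n < 2) (h1 : ∀ m, p (2 * m + 1) = (m + 1) % 2)
  (h2 : ∀ m, p (2 * m + 2) = (p (2 * m) + p (m + 1)) % 2)

include h1 h2 in
theorem step_eight (hz : p 0 = 1) (n : ℕ) : p (8 * n) = (p (4 * n) + n / 2) % 2 := by
  induction n with
  | zero => simp [hz]
  | succ n ih =>
    have a1 := h2 (4 * n)
    have a2 := h2 (4 * n + 1)
    have a3 := h2 (4 * n + 2)
    have a4 := h2 (4 * n + 3)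
    have b1 := h1 (2 * n)
    have b2 := h2 (2 * n)
    have b3 := h1 (2 * n + 1)
    have b4 := h1 n
    have e1 : 2 * (4 * n) = 8 * n := by ring
    have e2 : 2 * (4 * n + 1) = 8 * n + 2 := by ring
    have e3 : 2 * (4 * n + 2) = 8 * n + 4 := by ring
    have e4 : 2 * (4 * n + 3) = 8 * n + 6 := by ring
    have e5 : 2 * (2 * n) = 4 * n := by ring
    have e6 : 2 * (2 * n + 1) = 4 * n + 2 := by ring
    rw [e1] at a1
    rw [e2] at a2
    rw [e3] at a3
    rw [e4] at a4
    rw [e5] at b1 b2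
    rw [e6] at b3
    have e7 : 8 * (n + 1) = 8 * n + 6 + 2 := by ring
    have e8 : 4 * (n + 1) = 4 * n + 3 + 1 := by ring
    rw [e7, e8]
    simp only [add_assoc, Nat.reduceAdd] at *
    omega

end structure_

/-- The word of length 16. -/
def blk (a b c : ℕ) : List ℕ := [a, 1, 1 - a, 0, c, 1, c, 0, b, 1, 1 - b, 0, 1 - c, 1, 1 - c, 0]

/-- The positions of the letter `i`. -/
def pos (i a b c : ℕ) : List ℕ := (List.range 16).filter (fun s => (blk a b c).getD s 2 = i)

theorem pos_check1 : ∀ i < 2, ∀ a < 2, ∀ b < 2, ∀ c < 2,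
    (∀ t < 7, (pos i a b c).getD t 0 < (pos i a b c).getD (t + 1) 0) := by
  decide

theorem pos_check2 : ∀ i < 2, ∀ a < 2, ∀ b < 2, ∀ c < 2,
    (∀ t < 8, (pos i a b c).getD t 0 < 16 ∧ (blk a b c).getD ((pos i a b c).getD t 0) 2 = i) := by
  decide

theorem pos_check3 (i : ℕ) (hi : i < 2) (a : ℕ) (ha : a < 2) (b : ℕ) (hb : b < 2) (c : ℕ)
    (hc : c < 2) : ∀ s : Fin 16, (blk a b c).getD s 2 = i →
      ∃ t : Fin 8, (pos i a b c).getD t 0 = s := by
  interval_cases i <;> interval_cases a <;> interval_cases b <;> interval_cases c <;> decide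

theorem pos_check (i : ℕ) (hi : i < 2) (a : ℕ) (ha : a < 2) (b : ℕ) (hb : b < 2) (c : ℕ)
    (hc : c < 2) :
    ((∀ t < 7, (pos i a b c).getD t 0 < (pos i a b c).getD (t + 1) 0) ∧
    (∀ t < 8, (pos i a b c).getD t 0 < 16 ∧ (blk a b c).getD ((pos i a b c).getD t 0) 2 = i) ∧
    (∀ s < 16, (blk a b c).getD s 2 = i → ∃ t < 8, (pos i a b c).getD t 0 = s)) := by
  refine ⟨pos_check1 i hi a ha b hb c hc, pos_check2 i hi a ha b hb c hc, ?_⟩
  intro s hs h
  obtain ⟨t, ht⟩ := pos_check3 i hi a ha b hb c hc ⟨s, hs⟩ h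
  exact ⟨t, t.2, ht⟩

section structure_
variable {p : ℕ → ℕ} (h0 : ∀ n, p n < 2) (h1 : ∀ m, p (2 * m + 1) = (m + 1) % 2)
  (h2 : ∀ m, p (2 * m + 2) = (p (2 * m) + p (m + 1)) % 2) (hz : p 0 = 1)

include h0 h1 h2 hz in
theorem x_step (l : ℕ) : p (8 * (2 * l)) = (p (8 * l) + l) % 2 ∧
    p (8 * (2 * l + 1)) = (l / 2) % 2 := by
  have a := step_eight h1 h2 hz (2 * l)
  have b := step_eight h1 h2 hz (2 * l + 1)
  have c := step_eight h1 h2 hz l
  have a1 := h2 (4 * l)
  have a2 := h2 (4 * l + 1)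
  have b2 := h2 (2 * l)
  have b1 := h1 (2 * l)
  have b4 := h1 l
  have e1 : 2 * (4 * l) = 8 * l := by ring
  have e2 : 2 * (4 * l + 1) = 8 * l + 2 := by ring
  have e5 : 2 * (2 * l) = 4 * l := by ring
  rw [e1] at a1
  rw [e2] at a2
  rw [e5] at b1 b2
  have e6 : 4 * (2 * l) = 8 * l := by ring
  have e7 : 4 * (2 * l + 1) = 8 * l + 4 := by ring
  rw [e6] at a
  rw [e7] at b
  have := h0 (8 * l)
  simp only [add_assoc, Nat.reduceAdd] at *
  constructor <;> omega

include h0 h1 h2 hz in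
theorem block_eight (n : ℕ) :
    p (8 * n + 1) = 1 ∧ p (8 * n + 2) = 1 - p (8 * n) ∧ p (8 * n + 3) = 0 ∧
    p (8 * n + 4) = (n / 2 + n) % 2 ∧ p (8 * n + 5) = 1 ∧ p (8 * n + 6) = (n / 2 + n) % 2 ∧
    p (8 * n + 7) = 0 := by
  have c := step_eight h1 h2 hz n
  have a1 := h2 (4 * n)
  have a2 := h2 (4 * n + 1)
  have a3 := h2 (4 * n + 2)
  have b2 := h2 (2 * n)
  have b1 := h1 (2 * n)
  have b3 := h1 (2 * n + 1)
  have b4 := h1 n
  have c1 := h1 (4 * n)
  have c2 := h1 (4 * n + 1)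
  have c3 := h1 (4 * n + 2)
  have c4 := h1 (4 * n + 3)
  have e1 : 2 * (4 * n) = 8 * n := by ring
  have e2 : 2 * (4 * n + 1) = 8 * n + 2 := by ring
  have e3 : 2 * (4 * n + 2) = 8 * n + 4 := by ring
  have e4 : 2 * (4 * n + 3) = 8 * n + 6 := by ring
  have e5 : 2 * (2 * n) = 4 * n := by ring
  have e6 : 2 * (2 * n + 1) = 4 * n + 2 := by ring
  rw [e1] at a1 c1
  rw [e2] at a2 c2
  rw [e3] at a3 c3
  rw [e4] at c4
  rw [e5] at b1 b2
  rw [e6] at b3
  have := h0 (8 * n)
  simp only [add_assoc, Nat.reduceAdd] at *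
  refine ⟨?_, ?_, ?_, ?_, ?_, ?_, ?_⟩ <;> omega

include h0 h1 h2 hz in
theorem block_sixteen (q s : ℕ) (hs : s < 16) :
    p (16 * q + s) = (blk ((p (8 * q) + q) % 2) ((q / 2) % 2) (q % 2)).getD s 2 := by
  obtain ⟨x1, x2⟩ := x_step h0 h1 h2 hz q
  obtain ⟨a1, a2, a3, a4, a5, a6, a7⟩ := block_eight h0 h1 h2 hz (2 * q)
  obtain ⟨b1, b2, b3, b4, b5, b6, b7⟩ := block_eight h0 h1 h2 hz (2 * q + 1)
  have e1 : 8 * (2 * q) = 16 * q := by ring
  have e2 : 8 * (2 * q + 1) = 16 * q + 8 := by ring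
  rw [e1] at x1 a1 a2 a3 a4 a5 a6 a7
  rw [e2] at x2 b1 b2 b3 b4 b5 b6 b7
  simp only [add_assoc, Nat.reduceAdd] at b1 b2 b3 b4 b5 b6 b7
  unfold blk
  interval_cases s <;> simp only [List.getD_cons_zero, List.getD_cons_succ, add_zero] <;> omega

/-- the state -/
def st (p : ℕ → ℕ) (q : ℕ) : ℕ × ℕ := (p (8 * q), q % 4)

include h0 h1 h2 hz in
theorem st_step (q d : ℕ) (hd : d < 2) :
    st p (2 * q + d) = (if d = 0 then ((st p q).1 + (st p q).2) % 2 else (st p q).2 / 2,
      (2 * (st p q).2 + d) % 4) := by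
  obtain ⟨x1, x2⟩ := x_step h0 h1 h2 hz q
  unfold st
  have : d = 0 ∨ d = 1 := by omega
  rcases this with rfl | rfl
  · simp only [add_zero, if_true]
    rw [x1]
    ext <;> simp only <;> omega
  · simp only [one_ne_zero, if_false]
    rw [x2]
    ext <;> simp only <;> omega

include h0 h1 h2 hz in
/-- The state at `2^e n + j` is a function of the state at `n`. -/
theorem st_pow (e : ℕ) : ∀ j, j < 2 ^ e →
    ∃ Φ : ℕ × ℕ → ℕ × ℕ, ∀ n, st p (2 ^ e * n + j) = Φ (st p n) := by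
  induction e with
  | zero =>
    intro j hj
    have : j = 0 := by simpa using hj
    subst this
    exact ⟨id, fun n => by simp⟩
  | succ e ih =>
    intro j hj
    obtain ⟨Φ, hΦ⟩ := ih (j / 2) (by rw [pow_succ] at hj; omega)
    refine ⟨fun x => (if j % 2 = 0 then ((Φ x).1 + (Φ x).2) % 2 else (Φ x).2 / 2,
      (2 * (Φ x).2 + j % 2) % 4), fun n => ?_⟩
    have e1 : 2 ^ (e + 1) * n + j = 2 * (2 ^ e * n + j / 2) + j % 2 := by
      have := Nat.div_add_mod j 2
      rw [pow_succ, mul_add, add_assoc, this]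
      ring
    rw [e1, st_step h0 h1 h2 hz _ _ (Nat.mod_lt _ (by norm_num)), hΦ]

/-- the enumeration -/
def enm (p : ℕ → ℕ) (i n : ℕ) : ℕ :=
  16 * (n / 8) + (pos i ((p (8 * (n / 8)) + n / 8) % 2) ((n / 8 / 2) % 2) ((n / 8) % 2)).getD
    (n % 8) 0

theorem enm_mono (p : ℕ → ℕ) (i : ℕ) (hi : i < 2) : StrictMono (enm p i) := by
  apply strictMono_nat_of_lt_succ
  intro n
  unfold enm
  rcases Nat.lt_or_ge (n % 8) 7 with h | h
  · have e1 : (n + 1) / 8 = n / 8 := by omega
    have e2 : (n + 1) % 8 = n % 8 + 1 := by omega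
    rw [e1, e2]
    have := (pos_check i hi _ (Nat.mod_lt (p (8 * (n / 8)) + n / 8) (by norm_num)) _
      (Nat.mod_lt (n / 8 / 2) (by norm_num)) _ (Nat.mod_lt (n / 8) (by norm_num))).1 (n % 8) h
    omega
  · have e1 : (n + 1) / 8 = n / 8 + 1 := by omega
    have := ((pos_check i hi _ (Nat.mod_lt (p (8 * (n / 8)) + n / 8) (by norm_num)) _
      (Nat.mod_lt (n / 8 / 2) (by norm_num)) _ (Nat.mod_lt (n / 8) (by norm_num))).2.1 (n % 8)
      (Nat.mod_lt _ (by norm_num))).1
    rw [e1]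
    omega

include h0 h1 h2 hz in
theorem enm_range (i : ℕ) (hi : i < 2) : Set.range (enm p i) = {m | p m = i} := by
  ext m
  constructor
  · rintro ⟨n, rfl⟩
    show p (enm p i n) = i
    unfold enm
    have := ((pos_check i hi _ (Nat.mod_lt (p (8 * (n / 8)) + n / 8) (by norm_num)) _
      (Nat.mod_lt (n / 8 / 2) (by norm_num)) _ (Nat.mod_lt (n / 8) (by norm_num))).2.1 (n % 8)
      (Nat.mod_lt _ (by norm_num)))
    rw [block_sixteen h0 h1 h2 hz _ _ this.1]
    exact this.2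
  · intro hm
    have hm' : p m = i := hm
    have h3 := block_sixteen h0 h1 h2 hz (m / 16) (m % 16) (Nat.mod_lt _ (by norm_num))
    rw [Nat.div_add_mod, hm'] at h3
    obtain ⟨t, ht, ht2⟩ := (pos_check i hi _
      (Nat.mod_lt (p (8 * (m / 16)) + m / 16) (by norm_num)) _
      (Nat.mod_lt (m / 16 / 2) (by norm_num)) _ (Nat.mod_lt (m / 16) (by norm_num))).2.2
      (m % 16) (Nat.mod_lt _ (by norm_num)) h3.symm
    refine ⟨8 * (m / 16) + t, ?_⟩
    unfold enm
    have e1 : (8 * (m / 16) + t) / 8 = m / 16 := by omega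
    have e2 : (8 * (m / 16) + t) % 8 = t := by omega
    rw [e1, e2, ht2]
    omega

include h0 h1 h2 hz in
theorem enm_regular (i : ℕ) : IsRegular 2 (fun n => (enm p i n : ℤ)) := by
  -- states as a finite set
  let S : Finset (ℕ × ℕ) := Finset.range 2 ×ˢ Finset.range 4
  have hst : ∀ n, st p n ∈ S := by
    intro n
    simp only [S, st, Finset.mem_product, Finset.mem_range]
    exact ⟨h0 _, Nat.mod_lt _ (by norm_num)⟩
  let ind : ℕ × ℕ → ℕ → ℤ := fun σ n => if st p n = σ then 1 else 0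
  let A : Set (ℕ → ℤ) := {fun n : ℕ => (n : ℤ)} ∪ ind '' (S : Set (ℕ × ℕ)) ∪
    (fun x : ℕ × ℕ => fun n => (enm p i (2 ^ x.1 * n + x.2) : ℤ)) ''
      ((Finset.range 3 ×ˢ Finset.range 8 : Finset (ℕ × ℕ)) : Set (ℕ × ℕ))
  have hA : A.Finite :=
    ((Set.finite_singleton _).union ((Finset.finite_toSet S).image _)).union
      ((Finset.finite_toSet _).image _)
  have hfg : (Submodule.span ℤ A).FG := Submodule.fg_span hA
  have hle : Submodule.span ℤ (kernel 2 (fun n => (enm p i n : ℤ))) ≤ Submodule.span ℤ A := by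
    rw [Submodule.span_le]
    rintro v ⟨e, j, hj, rfl⟩
    rcases Nat.lt_or_ge e 3 with he | he
    · apply Submodule.subset_span
      right
      refine ⟨(e, j), ?_, rfl⟩
      simp only [Finset.coe_product, Finset.coe_range, Set.mem_prod, Set.mem_Iio]
      refine ⟨he, ?_⟩
      calc j < 2 ^ e := hj
        _ ≤ 2 ^ 3 := Nat.pow_le_pow_right (by norm_num) he.le
        _ = 8 := by norm_num
    · obtain ⟨e', rfl⟩ : ∃ e', e = e' + 3 := ⟨e - 3, by omega⟩
      have hj8 : j / 8 < 2 ^ e' := by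
        rw [pow_add] at hj; omega
      obtain ⟨Φ, hΦ⟩ := st_pow h0 h1 h2 hz e' (j / 8) hj8
      let g : ℕ × ℕ → ℤ := fun x => 16 * ((j / 8 : ℕ) : ℤ) +
        (((pos i (((Φ x).1 + (Φ x).2) % 2) (((Φ x).2 / 2) % 2) ((Φ x).2 % 2)).getD (j % 8) 0 : ℕ) : ℤ)
      have key : (fun n : ℕ => (enm p i (2 ^ (e' + 3) * n + j) : ℤ)) =
          (2 ^ (e' + 4) : ℤ) • (fun n : ℕ => (n : ℤ)) + ∑ σ ∈ S, g σ • ind σ := by
        funext n
        have e0 : 2 ^ (e' + 3) * n + j = 8 * (2 ^ e' * n) + j := by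
          rw [pow_add]; ring
        have e1 : (2 ^ (e' + 3) * n + j) / 8 = 2 ^ e' * n + j / 8 := by
          rw [e0]; omega
        have e2 : (2 ^ (e' + 3) * n + j) % 8 = j % 8 := by
          rw [e0]; omega
        have h5 := hΦ n
        have h6 : (Φ (st p n)).1 = p (8 * (2 ^ e' * n + j / 8)) := by rw [← h5]; rfl
        have h7 : (Φ (st p n)).2 = (2 ^ e' * n + j / 8) % 4 := by rw [← h5]; rfl
        have h8 : (∑ σ ∈ S, g σ • ind σ) n = g (st p n) := by
          rw [Finset.sum_apply, Finset.sum_eq_single (st p n)]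
          · simp [ind]
          · intro σ _ hσ
            simp [ind, Ne.symm hσ]
          · intro h
            exact absurd (hst n) h
        rw [Pi.add_apply, h8]
        simp only [g, enm, e1, e2]
        rw [h6, h7]
        have e3 : (p (8 * (2 ^ e' * n + j / 8)) + (2 ^ e' * n + j / 8) % 4) % 2 =
            (p (8 * (2 ^ e' * n + j / 8)) + (2 ^ e' * n + j / 8)) % 2 := by omega
        have e4 : ((2 ^ e' * n + j / 8) % 4 / 2) % 2 = ((2 ^ e' * n + j / 8) / 2) % 2 := by omega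
        have e5 : ((2 ^ e' * n + j / 8) % 4) % 2 = (2 ^ e' * n + j / 8) % 2 := by omega
        rw [e3, e4, e5]
        simp only [Pi.smul_apply, smul_eq_mul]
        push_cast
        ring
      show (fun n : ℕ => (enm p i (2 ^ (e' + 3) * n + j) : ℤ)) ∈ Submodule.span ℤ A
      rw [key]
      apply Submodule.add_mem
      · apply Submodule.smul_mem
        apply Submodule.subset_span
        left; left
        rfl
      · apply Submodule.sum_mem
        intro σ hσ
        apply Submodule.smul_mem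
        apply Submodule.subset_span
        left; right
        exact ⟨σ, hσ, rfl⟩
  exact Submodule.FG.of_le hfg hle

end structure_

/-- The sequence `h` of the problem exists; for it (for every function with the defining
property) and for each `i ∈ {0, 1}` the strictly increasing enumeration `u` of
`{m ∈ ℕ : h m mod 2 = i}` exists, is unique, and is `2`-regular. -/
theorem result : (∃ h, IsMeta h) ∧ ∀ h, IsMeta h → ∀ i : ℤ, (i = 0 ∨ i = 1) →
    (∃! u : ℕ → ℕ, StrictMono u ∧ Set.range u = {m : ℕ | h m % 2 = i}) ∧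
    ∀ u : ℕ → ℕ, StrictMono u → Set.range u = {m : ℕ | h m % 2 = i} →
      IsRegular 2 (fun n => (u n : ℤ)) := by
  refine ⟨⟨hh, isMeta_hh⟩, fun h hm i hi => ?_⟩
  obtain ⟨p0, p1, p2⟩ := par_spec hm
  have hz : par h 0 = 1 := by
    unfold par
    have := hm.1 0 (by norm_num)
    rw [Nat.cast_zero, this]
    rfl
  obtain ⟨i', hi', rfl⟩ : ∃ i' : ℕ, i' < 2 ∧ i = i' := by
    rcases hi with rfl | rfl
    · exact ⟨0, by norm_num, rfl⟩
    · exact ⟨1, by norm_num, rfl⟩
  have hset : {m : ℕ | h m % 2 = (i' : ℤ)} = {m | par h m = i'} := by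
    ext m
    show h m % 2 = (i' : ℤ) ↔ par h m = i'
    unfold par
    omega
  have hr := enm_range p0 p1 p2 hz i' hi'
  have hs := enm_mono (par h) i' hi'
  have huniq : ∀ u : ℕ → ℕ, StrictMono u → Set.range u = {m : ℕ | h m % 2 = (i' : ℤ)} →
      u = enm (par h) i' := by
    intro u hu1 hu2
    refine (StrictMono.range_inj hu1 hs).1 ?_
    rw [hu2, hset, hr]
  refine ⟨⟨enm (par h) i', ⟨hs, by rw [hset, hr]⟩, ?_⟩, ?_⟩
  · rintro u ⟨hu1, hu2⟩
    exact huniq u hu1 hu2
  · intro u hu1 hu2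
    rw [huniq u hu1 hu2]
    exact enm_regular p0 p1 p2 hz i'

end Pool.Agent.Results.MP_f90694_nt.ParityIndexRegular
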